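import Pool.Agent.R660.CF.Tilde
import Pool.Agent.R294.CFCont
import Pool.Agent.R294.CFVal

/-!
# The values of the topological entropy of slow `(a,b)`-continued fraction maps

`ft e a b` is the map of `[-1, 1]` of the problem, `lapSet F` is the set of the maximal intervals
on which `F` is monotone, and `lapsI e a b n` is the number of the laps of the `n`-th iterate
(definitions in `Pool/Agent/R660/CF/Tilde.lean`, by helper660). Proof idea by helper197.
-/

set_option autoImplicit false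

namespace Pool.Agent.Results.MP_d04ad0_an.EntropyValues

open Filter Topology Set Pool.Agent.R660.CF Pool.Agent.R294.CF

theorem exists_kappa : ∃ κ : ℝ, κ ^ 3 - κ ^ 2 - 1 = 0 ∧ ∀ x : ℝ, x ^ 3 - x ^ 2 - 1 = 0 → x = κ := by
  have hc : ContinuousOn (fun x : ℝ => x ^ 3 - x ^ 2 - 1) (Icc 1 2) := by fun_prop
  obtain ⟨κ, -, hκ⟩ := intermediate_value_Icc (by norm_num : (1 : ℝ) ≤ 2) hc
    (show (0 : ℝ) ∈ Icc ((fun x : ℝ => x ^ 3 - x ^ 2 - 1) 1) ((fun x : ℝ => x ^ 3 - x ^ 2 - 1) 2) by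
      norm_num)
  have h1 : ∀ x : ℝ, x ^ 3 - x ^ 2 - 1 = 0 → 1 < x := by
    intro x hx
    by_contra hcon
    have h2 : x ^ 2 * (x - 1) = 1 := by linarith
    nlinarith [sq_nonneg x, not_lt.1 hcon, mul_nonneg (sq_nonneg x) (sub_nonneg.2 (not_lt.1 hcon))]
  have hκ' : κ ^ 3 - κ ^ 2 - 1 = 0 := hκ
  refine ⟨κ, hκ', fun x hx => ?_⟩
  have k1 := h1 x hx
  have k2 := h1 κ hκ'
  have h3 : (x - κ) * (x ^ 2 + x * κ + κ ^ 2 - (x + κ)) = 0 := by linarith
  rcases mul_eq_zero.1 h3 with h | h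
  · linarith
  · nlinarith

/-- The polynomial `x^3 - x^2 - 1` has exactly one real root `κ`; there is a function `H` on the
parameter set `𝒫` which gives the topological entropy, i.e. the number of laps of the `n`-th iterate
is finite and `log (number of laps) / n → H a b` for every `(a, b)` in `𝒫` (whichever of the two
values `1`, `-1` is used for the middle branch at its jump `0`); and the set of the values of `H` on
`𝒫` is exactly the interval `[log κ, log ((1 + √5) / 2)]`; every value is even attained at some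
`(-1, b)` with `0 ≤ b ≤ 1`. -/
theorem result : ∃ κ : ℝ, (κ ^ 3 - κ ^ 2 - 1 = 0 ∧ ∀ x : ℝ, x ^ 3 - x ^ 2 - 1 = 0 → x = κ) ∧
    ∃ H : ℝ → ℝ → ℝ,
      (∀ e a b : ℝ, (e = 1 ∨ e = -1) → InP a b →
        (∀ n : ℕ, (lapSet (ft e a b)^[n]).Finite) ∧
        Tendsto (fun n : ℕ => Real.log (lapsI e a b n) / n) atTop (𝓝 (H a b))) ∧
      (∀ h : ℝ, (∃ a b : ℝ, InP a b ∧ H a b = h) ↔
        h ∈ Icc (Real.log κ) (Real.log ((1 + √5) / 2))) ∧
      ∀ h ∈ Icc (Real.log κ) (Real.log ((1 + √5) / 2)),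
        ∃ b : ℝ, 0 ≤ b ∧ b ≤ 1 ∧ InP (-1) b ∧ H (-1) b = h := by
  obtain ⟨κ, hκ, hκ'⟩ := exists_kappa
  have hκ1 : 1 ≤ κ := by
    by_contra hcon
    have h2 : κ ^ 2 * (κ - 1) = 1 := by linarith
    nlinarith [mul_nonneg (sq_nonneg κ) (sub_nonneg.2 (not_le.1 hcon).le)]
  have hκ3 : κ ^ 3 = κ ^ 2 + 1 := by linarith
  have hP : ∀ b : ℝ, 0 ≤ b → b ≤ 1 → InP (-1) b := fun b h0 h1 =>
    ⟨by norm_num, h0, by linarith, by linarith⟩
  have hall : ∀ h ∈ Icc (Real.log κ) (Real.log ((1 + √5) / 2)),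
        ∃ b : ℝ, 0 ≤ b ∧ b ≤ 1 ∧ InP (-1) b ∧ ent (-1) b = h := by
    intro h hh
    have hcont : ContinuousOn (fun b : ℝ => ent (-1) b) (Icc 0 1) := by
      refine ent_continuousOn.comp (f := fun b : ℝ => ((-1 : ℝ), b)) ?_ ?_
      · exact (continuous_const.prodMk continuous_id).continuousOn
      · intro b hb
        exact hP b hb.1 hb.2
    have h1 := intermediate_value_Icc (by norm_num : (0 : ℝ) ≤ 1) hcont
    have e0 : ent (-1) 0 = Real.log κ := ent_g hκ3 hκ1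
    have e1 : ent (-1) 1 = Real.log ((1 + √5) / 2) := ent_s
    rw [e0, e1] at h1
    obtain ⟨b, hb, hbh⟩ := h1 hh
    exact ⟨b, hb.1, hb.2, hP b hb.1 hb.2, hbh⟩
  refine ⟨κ, ⟨hκ, hκ'⟩, ent, ?_, ?_, hall⟩
  · intro e a b _ hab
    refine ⟨fun n => (lapSet_spec hab e n).1, ?_⟩
    rw [entropy_lapsI hab]
    exact ent_spec hab
  · intro h
    constructor
    · rintro ⟨a, b, hab, rfl⟩
      exact ⟨entropy_ge hab hκ3 hκ1 (ent_spec hab), entropy_le hab (ent_spec hab)⟩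
    · intro hh
      obtain ⟨b, -, -, h1, h2⟩ := hall h hh
      exact ⟨-1, b, h1, h2⟩

end Pool.Agent.Results.MP_d04ad0_an.EntropyValues
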